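import Mathlib
import Pool.Agent.MP_df548b_lc.Defs

-- part MP_df548b_lc.Geom
section

/-! Elementary real inequalities for the nested L-shape construction. -/

namespace Pool.Agent.MP_df548b_lc

open Set

lemma aff_sub {a d s t : ℝ} (h : ¬ (a = 0 ∧ d = 0)) (hst : s < t) :
    ∃ s' t', s ≤ s' ∧ s' < t' ∧ t' ≤ t ∧
      ((∀ x, s' < x → x < t' → 0 < a * x + d) ∨ (∀ x, s' < x → x < t' → a * x + d < 0)) := by
  rcases lt_trichotomy a 0 with ha | ha | ha
  · by_cases hm : a * ((s + t) / 2) + d ≤ 0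
    · refine ⟨(s + t) / 2, t, by linarith, by linarith, le_rfl, Or.inr fun x h1 h2 => ?_⟩
      nlinarith
    · refine ⟨s, (s + t) / 2, le_rfl, by linarith, by linarith, Or.inl fun x h1 h2 => ?_⟩
      nlinarith
  · have hd : d ≠ 0 := fun hd => h ⟨ha, hd⟩
    rcases lt_or_gt_of_ne hd with hd | hd
    · exact ⟨s, t, le_rfl, hst, le_rfl, Or.inr fun x _ _ => by simp [ha, hd]⟩
    · exact ⟨s, t, le_rfl, hst, le_rfl, Or.inl fun x _ _ => by simp [ha, hd]⟩
  · by_cases hm : 0 ≤ a * ((s + t) / 2) + d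
    · refine ⟨(s + t) / 2, t, by linarith, by linarith, le_rfl, Or.inl fun x h1 h2 => ?_⟩
      nlinarith
    · refine ⟨s, (s + t) / 2, le_rfl, by linarith, by linarith, Or.inr fun x h1 h2 => ?_⟩
      nlinarith

lemma aff_uncut {a d s t : ℝ} (h1 : 0 < a * s + d) (h2 : 0 ≤ a * t + d) :
    ∀ x, s ≤ x → x < t → 0 < a * x + d := by
  intro x hx1 hx2
  rcases le_or_gt 0 a with ha | ha
  · nlinarith
  · nlinarith

lemma aff_cut {a d s t : ℝ} (hst : s < t) (h1 : 0 < a * s + d) (h2 : a * t + d < 0) :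
    s < -d / a ∧ -d / a < t ∧ (∀ x, x < -d / a → 0 < a * x + d) ∧
      (∀ x, -d / a < x → a * x + d < 0) := by
  have ha : a < 0 := by nlinarith
  have key : ∀ x, a * x + d = a * (x - -d / a) := by
    intro x
    field_simp [ha.ne]
    ring
  refine ⟨?_, ?_, fun x hx => ?_, fun x hx => ?_⟩
  · rw [key] at h1
    by_contra hc
    push Not at hc
    nlinarith
  · rw [key] at h2
    by_contra hc
    push Not at hc
    nlinarith
  · rw [key]; nlinarith
  · rw [key]; nlinarith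

lemma gap_point {u v : ℝ} (h : (u + v) * (u + 2 * v) ≤ 0) :
    ∃ t, 1 ≤ t ∧ t ≤ 2 ∧ u + t * v = 0 := by
  by_cases hv : v = 0
  · subst hv
    refine ⟨1, le_rfl, by norm_num, ?_⟩
    have : u * u ≤ 0 := by simpa using h
    have : u = 0 := by nlinarith
    simp [this]
  · have hu : u = -(-u / v) * v := by field_simp
    set t := -u / v with ht
    have hv2 : 0 < v * v := mul_self_pos.mpr hv
    have h' : (1 - t) * (2 - t) * (v * v) ≤ 0 := by
      have : (u + v) * (u + 2 * v) = (1 - t) * (2 - t) * (v * v) := by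
        rw [hu]; ring
      linarith
    have h'' : (1 - t) * (2 - t) ≤ 0 := by
      by_contra hc
      push Not at hc
      have := mul_pos hc hv2
      linarith
    refine ⟨t, by nlinarith, by nlinarith, ?_⟩
    rw [hu]; ring

/-- No line meets three of the gaps. -/
lemma no_three_gaps {m : ℕ} {M a b c : ℝ} (hM : 2 * (m : ℝ) + 3 ≤ M) (hab : a ≠ 0 ∨ b ≠ 0)
    {i j k : ℕ} (hij : i < j) (hjk : j < k) (hk : k < m)
    (hi : (a * i - c + b * M ^ i) * (a * i - c + 2 * (b * M ^ i)) ≤ 0)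
    (hj : (a * j - c + b * M ^ j) * (a * j - c + 2 * (b * M ^ j)) ≤ 0)
    (hk' : (a * k - c + b * M ^ k) * (a * k - c + 2 * (b * M ^ k)) ≤ 0) : False := by
  obtain ⟨s, hs1, hs2, hs⟩ := gap_point hi
  obtain ⟨t, ht1, ht2, ht⟩ := gap_point hj
  obtain ⟨u, hu1, hu2, hu⟩ := gap_point hk'
  have hm0 : (0 : ℝ) ≤ m := Nat.cast_nonneg m
  have hM1 : (1 : ℝ) ≤ M := by linarith
  have hM0 : (0 : ℝ) < M := by linarith
  have hij' : (i : ℝ) + 1 ≤ j := by exact_mod_cast hij
  have hjk' : (j : ℝ) + 1 ≤ k := by exact_mod_cast hjk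
  have hkm : (k : ℝ) + 1 ≤ m := by exact_mod_cast hk
  have hi0 : (0 : ℝ) ≤ i := Nat.cast_nonneg i
  by_cases hb : b = 0
  · subst hb
    have ha : a ≠ 0 := by tauto
    have : a * (j - i) = 0 := by linarith
    rcases mul_eq_zero.mp this with h | h
    · exact ha h
    · linarith
  · have hpi : 0 < M ^ i := pow_pos hM0 i
    have hpj : 0 < M ^ j := pow_pos hM0 j
    have hkj : M * M ^ j ≤ M ^ k := by
      rw [← pow_succ']
      exact pow_le_pow_right₀ hM1 hjk
    have e : b * ((u * M ^ k - t * M ^ j) * (j - i) - (t * M ^ j - s * M ^ i) * (k - j)) = 0 := by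
      have e1 : u * (b * M ^ k) = c - a * k := by linarith
      have e2 : t * (b * M ^ j) = c - a * j := by linarith
      have e3 : s * (b * M ^ i) = c - a * i := by linarith
      have : b * ((u * M ^ k - t * M ^ j) * (j - i) - (t * M ^ j - s * M ^ i) * (k - j))
          = (u * (b * M ^ k) - t * (b * M ^ j)) * (j - i)
            - (t * (b * M ^ j) - s * (b * M ^ i)) * (k - j) := by ring
      rw [this, e1, e2, e3]; ring
    have e' := (mul_eq_zero.mp e).resolve_left hb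
    have hpk : 0 < M ^ k := pow_pos hM0 k
    have hu' : M ^ k ≤ u * M ^ k := le_mul_of_one_le_left hpk.le hu1
    have ht' : t * M ^ j ≤ 2 * M ^ j := mul_le_mul_of_nonneg_right ht2 hpj.le
    have hs' : 0 ≤ s * M ^ i := by positivity
    have h1 : (M - 2) * M ^ j ≤ u * M ^ k - t * M ^ j := by linarith
    have h2 : t * M ^ j - s * M ^ i ≤ 2 * M ^ j := by linarith
    have h3 : 0 ≤ (M - 2) * M ^ j := mul_nonneg (by linarith) hpj.le
    have h4 : (M - 2) * M ^ j ≤ (u * M ^ k - t * M ^ j) * (j - i) :=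
      h1.trans (le_mul_of_one_le_right (h3.trans h1) (by linarith))
    have h5 : (t * M ^ j - s * M ^ i) * (k - j) ≤ 2 * M ^ j * m := by
      have : (t * M ^ j - s * M ^ i) * (k - j) ≤ 2 * M ^ j * (k - j) := by
        apply mul_le_mul_of_nonneg_right h2; linarith
      have : 2 * M ^ j * ((k : ℝ) - j) ≤ 2 * M ^ j * m := by
        apply mul_le_mul_of_nonneg_left _ (by positivity); linarith
      linarith
    have h6 : (2 * m + 1) * M ^ j ≤ (M - 2) * M ^ j :=
      mul_le_mul_of_nonneg_right (by linarith) hpj.le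
    linarith

lemma card_le_two_of_no_three {E : Finset ℕ}
    (h : ∀ i ∈ E, ∀ j ∈ E, ∀ k ∈ E, i < j → j < k → False) : E.card ≤ 2 := by
  rcases E.eq_empty_or_nonempty with rfl | hne
  · simp
  · have : E ⊆ {E.min' hne, E.max' hne} := by
      intro j hj
      simp only [Finset.mem_insert, Finset.mem_singleton]
      by_contra hc
      push Not at hc
      exact h _ (E.min'_mem hne) j hj _ (E.max'_mem hne)
        (lt_of_le_of_ne (E.min'_le j hj) (Ne.symm hc.1)) (lt_of_le_of_ne (E.le_max' j hj) hc.2)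
    exact (Finset.card_le_card this).trans Finset.card_le_two

lemma exists_exc (K : Finset ℕ) : ∃ E : Finset ℕ, E.card ≤ 4 ∧
    ∀ k ∈ K, k ∉ E → (∃ l ∈ K, l < k) ∧ ∃ i ∈ K, ∃ j ∈ K, k + 2 ≤ i ∧ i < j := by
  rcases K.eq_empty_or_nonempty with rfl | hne
  · exact ⟨∅, by simp, by simp⟩
  · rcases (K.erase (K.max' hne)).eq_empty_or_nonempty with he | hne'
    · refine ⟨{K.max' hne}, by simp, fun k hk hkE => ?_⟩
      exfalso
      have : k ∈ K.erase (K.max' hne) := by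
        simp only [Finset.mem_singleton] at hkE
        exact Finset.mem_erase.mpr ⟨hkE, hk⟩
      simp [he] at this
    · set j := K.max' hne with hj
      set i := (K.erase j).max' hne' with hi
      have hiK : i ∈ K.erase j := Finset.max'_mem _ _
      refine ⟨{K.min' hne, j, i, i - 1}, Finset.card_le_four, fun k hk hkE => ?_⟩
      simp only [Finset.mem_insert, Finset.mem_singleton, not_or] at hkE
      obtain ⟨h1, h2, h3, h4⟩ := hkE
      refine ⟨⟨K.min' hne, K.min'_mem hne, lt_of_le_of_ne (K.min'_le k hk) (Ne.symm h1)⟩,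
        i, (Finset.mem_erase.mp hiK).2, j, K.max'_mem hne, ?_, ?_⟩
      · have : k ≤ i := Finset.le_max' _ k (Finset.mem_erase.mpr ⟨h2, hk⟩)
        omega
      · exact lt_of_le_of_ne (K.le_max' i (Finset.mem_erase.mp hiK).2) (Finset.mem_erase.mp hiK).1

/-- The horizontal arm of `k` reaches beyond `i - 1`. -/
lemma reach_h {m : ℕ} {M p q : ℝ} (hM : 2 * (m : ℝ) + 3 ≤ M) {k i j : ℕ} (hki : k ≤ i) (hij : i < j)
    (hi1 : (i : ℝ) < p + q * M ^ i)
    (hj2 : p + q * M ^ j ≤ m) :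
    (i : ℝ) - 1 ≤ p + q * M ^ k := by
  have hm0 : (0 : ℝ) ≤ m := Nat.cast_nonneg m
  have hM1 : (1 : ℝ) ≤ M := by linarith
  have hM0 : (0 : ℝ) < M := by linarith
  have hpi : 0 < M ^ i := pow_pos hM0 i
  have hpk : 0 < M ^ k := pow_pos hM0 k
  have hji : M * M ^ i ≤ M ^ j := by
    rw [← pow_succ']
    exact pow_le_pow_right₀ hM1 hij
  have hik : M ^ k ≤ M ^ i := pow_le_pow_right₀ hM1 hki
  have hi0 : (0 : ℝ) ≤ i := Nat.cast_nonneg i
  rcases le_or_gt q 0 with hq | hq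
  · nlinarith
  · have h1 : q * (M ^ j - M ^ i) ≤ m := by nlinarith
    have h2 : q * ((M - 1) * M ^ i) ≤ q * (M ^ j - M ^ i) := by
      apply mul_le_mul_of_nonneg_left _ hq.le; nlinarith
    have h3 : q * M ^ i ≤ 1 := by
      by_contra hc
      push Not at hc
      nlinarith
    nlinarith [mul_pos hq hpk]

/-- The vertical arm of `k` is long. -/
lemma reach_v {m : ℕ} {M r s : ℝ} (hM : 2 * (m : ℝ) + 3 ≤ M) {l k k' j : ℕ} (hlk : l < k)
    (hkk : k < k') (hkj : k' + 2 < j) (hjm : j < m)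
    (hl : 2 * M ^ l < r + s * l) (hj : 2 * M ^ j < r + s * j) :
    M ^ k + m * M ^ k' ≤ r + s * k := by
  have hm0 : (0 : ℝ) ≤ m := Nat.cast_nonneg m
  have hM1 : (1 : ℝ) ≤ M := by linarith
  have hM0 : (0 : ℝ) < M := by linarith
  have hpl : 0 < M ^ l := pow_pos hM0 l
  have hpk : 0 < M ^ k' := pow_pos hM0 k'
  have hpj : 0 < M ^ j := pow_pos hM0 j
  have hkk' : M ^ k ≤ M ^ k' := pow_le_pow_right₀ hM1 hkk.le
  have hj2 : M * (M * M ^ k') ≤ M ^ j := by
    rw [← pow_succ', ← pow_succ']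
    exact pow_le_pow_right₀ hM1 (by omega)
  have hlk' : (l : ℝ) + 1 ≤ k := by exact_mod_cast hlk
  have hkj' : (k : ℝ) + 1 ≤ j := by exact_mod_cast (by omega : k < j)
  have hjm' : (j : ℝ) + 1 ≤ m := by exact_mod_cast hjm
  have hl0 : (0 : ℝ) ≤ l := Nat.cast_nonneg l
  have e : (r + s * k) * (j - l) = (r + s * l) * (j - k) + (r + s * j) * (k - l) := by ring
  have h1 : 0 ≤ (r + s * l) * (j - k) := by
    apply mul_nonneg <;> linarith
  have h2 : 2 * M ^ j ≤ (r + s * j) * (k - l) := by nlinarith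
  have h3 : 2 * M ^ j ≤ (r + s * k) * (j - l) := by linarith
  have h4 : 0 < r + s * k := by
    by_contra hc
    push Not at hc
    have : (r + s * k) * ((j : ℝ) - l) ≤ 0 := mul_nonpos_of_nonpos_of_nonneg hc (by linarith)
    linarith
  have h5 : (r + s * k) * ((j : ℝ) - l) ≤ (r + s * k) * M := by
    apply mul_le_mul_of_nonneg_left _ h4.le; linarith
  have h6 : 2 * (M * M ^ k') ≤ r + s * k := by
    have : 2 * (M * M ^ k') * M ≤ (r + s * k) * M := by nlinarith
    exact le_of_mul_le_mul_right this hM0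
  nlinarith

/-- A point of the triangle spanned by an uncut L-shape lies on the same side. -/
lemma triangle {a b c x x' y y' β α n : ℝ} (hx : x < x') (hy : y ≤ y') (hn : x' - x + 1 ≤ n)
    (hy0 : 0 < y) (hβ : x' + 1 ≤ β) (hα : y + n * y' ≤ α)
    (hP : 0 < a * x - c + b * y) (hB : 0 ≤ a * β + (b * y - c)) (hA : 0 ≤ b * α + (a * x - c)) :
    0 ≤ a * x' - c + b * y' := by
  have hn0 : 0 < n := by linarith
  have hβx : 0 < β - x := by linarith
  have hαy : 0 < α - y := by nlinarith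
  set lam := (x' - x) / (β - x) with hlam
  set mu := (y' - y) / (α - y) with hmu
  have hlam0 : 0 ≤ lam := div_nonneg (by linarith) hβx.le
  have hmu0 : 0 ≤ mu := div_nonneg (by linarith) hαy.le
  have hlam1 : lam ≤ 1 - 1 / n := by
    rw [hlam, div_le_iff₀ hβx]
    have h1 : (1 - 1 / n) * (x' - x + 1) ≤ (1 - 1 / n) * (β - x) := by
      apply mul_le_mul_of_nonneg_left (by linarith)
      rw [sub_nonneg, div_le_one hn0]; linarith
    have h2 : (x' - x + 1) / n ≤ 1 := by rw [div_le_one hn0]; exact hn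
    have h3 : (1 - 1 / n) * (x' - x + 1) = x' - x + 1 - (x' - x + 1) / n := by ring
    linarith
  have hmu1 : mu ≤ 1 / n := by
    rw [hmu, div_le_div_iff₀ hαy hn0]
    nlinarith
  have e1 : x' = x + lam * (β - x) := by rw [hlam]; field_simp; ring
  have e2 : y' = y + mu * (α - y) := by rw [hmu]; field_simp; ring
  have e : a * x' - c + b * y' = (1 - lam - mu) * (a * x - c + b * y)
      + lam * (a * β + (b * y - c)) + mu * (b * α + (a * x - c)) := by
    rw [e1, e2]; ring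
  rw [e]
  have : 0 ≤ 1 - lam - mu := by linarith
  positivity

end Pool.Agent.MP_df548b_lc

end

-- part MP_df548b_lc.Count
section

/-! The counting argument: a shallow partition must cut most L-shapes many times. -/

namespace Pool.Agent.MP_df548b_lc

open Set

/-- Validity of a tree with respect to the union `U` of the segments, tracked through open
half-planes. -/
def Val (U : Set (ℝ × ℝ)) : Set (ℝ × ℝ) → BinaryTree (ℝ × ℝ × ℝ) → Prop
  | O, .nil => Disjoint O U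
  | O, .node (a, b, c) l r =>
      (a ≠ 0 ∨ b ≠ 0) ∧
        Val U (O ∩ {p | c < a * p.1 + b * p.2}) l ∧
        Val U (O ∩ {p | a * p.1 + b * p.2 < c}) r

open Classical in
/-- Number of nodes whose line is `y = M ^ k` or `x = k`. -/
noncomputable def cnt (M : ℝ) (k : ℕ) : BinaryTree (ℝ × ℝ × ℝ) → ℕ
  | .nil => 0
  | .node (a, b, c) l r =>
      cnt M k l + cnt M k r + if (a = 0 ∧ b * M ^ k - c = 0) ∨ (b = 0 ∧ a * k - c = 0) then 1 else 0

lemma sum_cnt_le {U : Set (ℝ × ℝ)} {M : ℝ} (hM : 1 < M) (K : Finset ℕ) :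
    ∀ (T : BinaryTree (ℝ × ℝ × ℝ)) (O : Set (ℝ × ℝ)), Val U O T →
      ∑ k ∈ K, cnt M k T ≤ T.numNodes := by
  intro T
  induction T with
  | nil => intro O _; simp [cnt]
  | node v l r ihl ihr =>
    obtain ⟨a, b, c⟩ := v
    intro O h
    obtain ⟨hab, hl, hr⟩ := h
    classical
    simp only [cnt, Finset.sum_add_distrib, BinaryTree.numNodes]
    have h1 := ihl _ hl
    have h2 := ihr _ hr
    have h3 : (∑ k ∈ K, if (a = 0 ∧ b * M ^ k - c = 0) ∨ (b = 0 ∧ a * k - c = 0) then 1 else 0)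
        ≤ 1 := by
      rw [← Finset.card_filter, Finset.card_le_one]
      intro i hi j hj
      simp only [Finset.mem_filter] at hi hj
      rcases hi.2 with ⟨ha, hi⟩ | ⟨hb, hi⟩
      · have hb : b ≠ 0 := by tauto
        rcases hj.2 with ⟨_, hj⟩ | ⟨hb', _⟩
        · have : M ^ i = M ^ j := mul_left_cancel₀ hb (by linarith)
          exact pow_right_injective₀ (by linarith) hM.ne' this
        · exact absurd hb' hb
      · have ha : a ≠ 0 := by tauto
        rcases hj.2 with ⟨ha', _⟩ | ⟨_, hj⟩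
        · exact absurd ha' ha
        · have : (i : ℝ) = j := mul_left_cancel₀ ha (by linarith)
          exact_mod_cast this
    convert add_le_add (add_le_add h1 h2) h3

lemma cnt_pos_h {U : Set (ℝ × ℝ)} {M : ℝ} {k : ℕ} :
    ∀ (T : BinaryTree (ℝ × ℝ × ℝ)) (O : Set (ℝ × ℝ)) (s t : ℝ), Val U O T → s < t →
      (∀ x, s < x → x < t → (x, M ^ k) ∈ O ∧ (x, M ^ k) ∈ U) → 1 ≤ cnt M k T := by
  intro T
  induction T with
  | nil =>
    intro O s t h hst hx
    obtain ⟨h1, h2⟩ := hx ((s + t) / 2) (by linarith) (by linarith)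
    exact absurd h2 (Set.disjoint_left.mp h h1)
  | node v l r ihl ihr =>
    obtain ⟨a, b, c⟩ := v
    intro O s t h hst hx
    obtain ⟨hab, hl, hr⟩ := h
    simp only [cnt]
    by_cases hc : a = 0 ∧ b * M ^ k - c = 0
    · rw [if_pos (Or.inl hc)]; omega
    · obtain ⟨s', t', h1, h2, h3, h4 | h4⟩ := aff_sub hc hst
      · have := ihl _ s' t' hl h2 fun x hx1 hx2 => by
          obtain ⟨e1, e2⟩ := hx x (by linarith) (by linarith)
          refine ⟨⟨e1, ?_⟩, e2⟩
          have := h4 x hx1 hx2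
          show c < a * x + b * M ^ k
          linarith
        omega
      · have := ihr _ s' t' hr h2 fun x hx1 hx2 => by
          obtain ⟨e1, e2⟩ := hx x (by linarith) (by linarith)
          refine ⟨⟨e1, ?_⟩, e2⟩
          have := h4 x hx1 hx2
          show a * x + b * M ^ k < c
          linarith
        omega

lemma cnt_pos_v {U : Set (ℝ × ℝ)} {M : ℝ} {k : ℕ} :
    ∀ (T : BinaryTree (ℝ × ℝ × ℝ)) (O : Set (ℝ × ℝ)) (s t : ℝ), Val U O T → s < t →
      (∀ y, s < y → y < t → ((k : ℝ), y) ∈ O ∧ ((k : ℝ), y) ∈ U) → 1 ≤ cnt M k T := by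
  intro T
  induction T with
  | nil =>
    intro O s t h hst hx
    obtain ⟨h1, h2⟩ := hx ((s + t) / 2) (by linarith) (by linarith)
    exact absurd h2 (Set.disjoint_left.mp h h1)
  | node v l r ihl ihr =>
    obtain ⟨a, b, c⟩ := v
    intro O s t h hst hx
    obtain ⟨hab, hl, hr⟩ := h
    simp only [cnt]
    by_cases hc : b = 0 ∧ a * k - c = 0
    · rw [if_pos (Or.inr hc)]; omega
    · obtain ⟨s', t', h1, h2, h3, h4 | h4⟩ := aff_sub hc hst
      · have := ihl _ s' t' hl h2 fun x hx1 hx2 => by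
          obtain ⟨e1, e2⟩ := hx x (by linarith) (by linarith)
          refine ⟨⟨e1, ?_⟩, e2⟩
          have := h4 x hx1 hx2
          show c < a * k + b * x
          linarith
        omega
      · have := ihr _ s' t' hr h2 fun x hx1 hx2 => by
          obtain ⟨e1, e2⟩ := hx x (by linarith) (by linarith)
          refine ⟨⟨e1, ?_⟩, e2⟩
          have := h4 x hx1 hx2
          show a * k + b * x < c
          linarith
        omega

/-- The horizontal arms of the indices in `K` stay in `O` until a common line. -/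
def CohH (m : ℕ) (M : ℝ) (O : Set (ℝ × ℝ)) (K : Finset ℕ) (p q : ℝ) : Prop :=
  ∀ k ∈ K, (k : ℝ) < p + q * M ^ k ∧ p + q * M ^ k ≤ m ∧
    ∀ x, (k : ℝ) ≤ x → x < p + q * M ^ k → (x, M ^ k) ∈ O

/-- The vertical arms of the indices in `K` stay in `O` until a common line. -/
def CohV (m : ℕ) (M : ℝ) (O : Set (ℝ × ℝ)) (K : Finset ℕ) (r s : ℝ) : Prop :=
  ∀ k ∈ K, 2 * M ^ k < r + s * k ∧ r + s * k ≤ M ^ m ∧
    ∀ y, 2 * M ^ k ≤ y → y < r + s * k → ((k : ℝ), y) ∈ O

/-- Coherent index sets. -/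
def Coh (m : ℕ) (M : ℝ) (O : Set (ℝ × ℝ)) (K : Finset ℕ) : Prop :=
  (∀ k ∈ K, k < m) ∧ (∃ p q, CohH m M O K p q) ∧ (∃ r s, CohV m M O K r s)

section side

variable {m : ℕ} {M : ℝ} {O O₁ O₂ : Set (ℝ × ℝ)} {K K' : Finset ℕ} {p q r s a b c : ℝ}

lemma cohH_uncut (h : CohH m M O K p q) (hK : K' ⊆ K)
    (hO : ∀ z ∈ O, c < a * z.1 + b * z.2 → z ∈ O₁)
    (h1 : ∀ k ∈ K', 0 < a * k - c + b * M ^ k)
    (h2 : ∀ k ∈ K', 0 ≤ a * (p + q * M ^ k) + (b * M ^ k - c)) : CohH m M O₁ K' p q := by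
  intro k hk
  obtain ⟨e1, e2, e3⟩ := h k (hK hk)
  refine ⟨e1, e2, fun x hx1 hx2 => hO _ (e3 x hx1 hx2) ?_⟩
  have := aff_uncut (a := a) (d := b * M ^ k - c) (s := k) (by linarith [h1 k hk]) (h2 k hk)
    x hx1 hx2
  show c < a * x + b * M ^ k
  linarith

lemma cohV_uncut (h : CohV m M O K r s) (hK : K' ⊆ K)
    (hO : ∀ z ∈ O, c < a * z.1 + b * z.2 → z ∈ O₁)
    (h1 : ∀ k ∈ K', 0 < a * k - c + 2 * (b * M ^ k))
    (h2 : ∀ k ∈ K', 0 ≤ b * (r + s * k) + (a * k - c)) : CohV m M O₁ K' r s := by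
  intro k hk
  obtain ⟨e1, e2, e3⟩ := h k (hK hk)
  refine ⟨e1, e2, fun x hx1 hx2 => hO _ (e3 x hx1 hx2) ?_⟩
  have := aff_uncut (a := b) (d := a * k - c) (s := 2 * M ^ k) (by linarith [h1 k hk]) (h2 k hk)
    x hx1 hx2
  show c < a * k + b * x
  linarith

lemma cohH_cut (h : CohH m M O K p q) (hK : K' ⊆ K)
    (hO : ∀ z ∈ O, c < a * z.1 + b * z.2 → z ∈ O₁)
    (h1 : ∀ k ∈ K', 0 < a * k - c + b * M ^ k)
    (h2 : ∀ k ∈ K', a * (p + q * M ^ k) + (b * M ^ k - c) < 0) :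
    CohH m M O₁ K' (c / a) (-b / a) := by
  intro k hk
  obtain ⟨e1, e2, e3⟩ := h k (hK hk)
  obtain ⟨f1, f2, f3, -⟩ := aff_cut (a := a) (d := b * M ^ k - c) e1 (by linarith [h1 k hk])
    (h2 k hk)
  have e : c / a + -b / a * M ^ k = -(b * M ^ k - c) / a := by ring
  rw [e]
  refine ⟨f1, by linarith, fun x hx1 hx2 => hO _ (e3 x hx1 (by linarith)) ?_⟩
  have := f3 x hx2
  show c < a * x + b * M ^ k
  linarith

lemma cohV_cut (h : CohV m M O K r s) (hK : K' ⊆ K)
    (hO : ∀ z ∈ O, c < a * z.1 + b * z.2 → z ∈ O₁)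
    (h1 : ∀ k ∈ K', 0 < a * k - c + 2 * (b * M ^ k))
    (h2 : ∀ k ∈ K', b * (r + s * k) + (a * k - c) < 0) :
    CohV m M O₁ K' (c / b) (-a / b) := by
  intro k hk
  obtain ⟨e1, e2, e3⟩ := h k (hK hk)
  obtain ⟨f1, f2, f3, -⟩ := aff_cut (a := b) (d := a * k - c) e1 (by linarith [h1 k hk])
    (h2 k hk)
  have e : c / b + -a / b * k = -(a * k - c) / b := by ring
  rw [e]
  refine ⟨f1, by linarith, fun x hx1 hx2 => hO _ (e3 x hx1 (by linarith)) ?_⟩
  have := f3 x hx2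
  show c < a * k + b * x
  linarith

lemma sib_h {U : Set (ℝ × ℝ)} {T : BinaryTree (ℝ × ℝ × ℝ)} {k : ℕ}
    (hU : ∀ x, (k : ℝ) ≤ x → x ≤ m → (x, M ^ k) ∈ U)
    (h : CohH m M O K p q) (hk : k ∈ K) (hT : Val U O₂ T)
    (hO : ∀ z ∈ O, a * z.1 + b * z.2 < c → z ∈ O₂)
    (h1 : 0 < a * k - c + b * M ^ k)
    (h2 : a * (p + q * M ^ k) + (b * M ^ k - c) < 0) : 1 ≤ cnt M k T := by
  obtain ⟨e1, e2, e3⟩ := h k hk
  obtain ⟨f1, f2, -, f4⟩ := aff_cut (a := a) (d := b * M ^ k - c) e1 (by linarith) h2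
  refine cnt_pos_h T O₂ _ _ hT f2 fun x hx1 hx2 => ⟨hO _ (e3 x (by linarith) hx2) ?_,
    hU x (by linarith) (by linarith)⟩
  have := f4 x hx1
  show a * x + b * M ^ k < c
  linarith

lemma sib_v {U : Set (ℝ × ℝ)} {T : BinaryTree (ℝ × ℝ × ℝ)} {k : ℕ}
    (hU : ∀ y, 2 * M ^ k ≤ y → y ≤ M ^ m → ((k : ℝ), y) ∈ U)
    (h : CohV m M O K r s) (hk : k ∈ K) (hT : Val U O₂ T)
    (hO : ∀ z ∈ O, a * z.1 + b * z.2 < c → z ∈ O₂)
    (h1 : 0 < a * k - c + 2 * (b * M ^ k))
    (h2 : b * (r + s * k) + (a * k - c) < 0) : 1 ≤ cnt M k T := by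
  obtain ⟨e1, e2, e3⟩ := h k hk
  obtain ⟨f1, f2, -, f4⟩ := aff_cut (a := b) (d := a * k - c) e1 (by linarith) h2
  refine cnt_pos_v T O₂ _ _ hT f2 fun x hx1 hx2 => ⟨hO _ (e3 x (by linarith) hx2) ?_,
    hU x (by linarith) (by linarith)⟩
  have := f4 x hx1
  show a * k + b * x < c
  linarith

open Classical in
/-- The indices lying on the positive side. -/
noncomputable def side (M a b c : ℝ) (K : Finset ℕ) : Finset ℕ :=
  K.filter fun k : ℕ => 0 < a * k - c + b * M ^ k ∧ 0 < a * k - c + 2 * (b * M ^ k)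

open Classical in
/-- The indices on the positive side none of whose arms is cut. -/
noncomputable def uncut (M p q r s a b c : ℝ) (K : Finset ℕ) : Finset ℕ :=
  (side M a b c K).filter fun k : ℕ =>
    0 ≤ a * (p + q * M ^ k) + (b * M ^ k - c) ∧ 0 ≤ b * (r + s * k) + (a * k - c)

lemma side_bound {U : Set (ℝ × ℝ)} {T₁ T₂ : BinaryTree (ℝ × ℝ × ℝ)} {B u : ℝ} {n : ℕ}
    (hu : 0 < u) (hB : 0 ≤ B)
    (hUh : ∀ k < m, ∀ x, (k : ℝ) ≤ x → x ≤ m → (x, M ^ k) ∈ U)
    (hUv : ∀ k < m, ∀ y, 2 * M ^ k ≤ y → y ≤ M ^ m → ((k : ℝ), y) ∈ U)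
    (hm : ∀ k ∈ K, k < m) (hH : CohH m M O K p q) (hV : CohV m M O K r s)
    (hO₁ : ∀ z ∈ O, c < a * z.1 + b * z.2 → z ∈ O₁)
    (hO₂ : ∀ z ∈ O, a * z.1 + b * z.2 < c → z ∈ O₂)
    (hT₂ : Val U O₂ T₂)
    (ih : ∀ (K' : Finset ℕ) (n' : ℕ), Coh m M O₁ K' → (∀ k ∈ K', cnt M k T₁ ≤ n') →
      (K'.card : ℝ) ≤ B * u ^ n')
    (hn : ∀ k ∈ K, cnt M k T₁ + cnt M k T₂ ≤ n) :
    ((uncut M p q r s a b c K).card : ℝ) ≤ B * u ^ n ∧
      (((side M a b c K) \ (uncut M p q r s a b c K)).card : ℝ) ≤ 3 * (B * u ^ n / u) := by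
  classical
  have hsub : side M a b c K ⊆ K := Finset.filter_subset _ _
  have hs1 : ∀ k ∈ side M a b c K, 0 < a * k - c + b * M ^ k :=
    fun k hk => (Finset.mem_filter.mp hk).2.1
  have hs2 : ∀ k ∈ side M a b c K, 0 < a * k - c + 2 * (b * M ^ k) :=
    fun k hk => (Finset.mem_filter.mp hk).2.2
  constructor
  · have hsub' : uncut M p q r s a b c K ⊆ side M a b c K := Finset.filter_subset _ _
    refine ih _ n ⟨fun k hk => hm k (hsub (hsub' hk)), ⟨p, q, ?_⟩, ⟨r, s, ?_⟩⟩ ?_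
    · exact cohH_uncut hH (hsub'.trans hsub) hO₁ (fun k hk => hs1 k (hsub' hk))
        (fun k hk => (Finset.mem_filter.mp hk).2.1)
    · exact cohV_uncut hV (hsub'.trans hsub) hO₁ (fun k hk => hs2 k (hsub' hk))
        (fun k hk => (Finset.mem_filter.mp hk).2.2)
    · intro k hk
      have := hn k (hsub (hsub' hk))
      omega
  · -- a class of cut indices
    have cls : ∀ K' : Finset ℕ, K' ⊆ side M a b c K → Coh m M O₁ K' →
        (∀ k ∈ K', 1 ≤ cnt M k T₂) → (K'.card : ℝ) ≤ B * u ^ n / u := by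
      intro K' hK' hc h1
      rcases K'.eq_empty_or_nonempty with rfl | ⟨k₀, hk₀⟩
      · simp only [Finset.card_empty, Nat.cast_zero]; positivity
      · have hn1 : 1 ≤ n := by
          have := hn k₀ (hsub (hK' hk₀))
          have := h1 k₀ hk₀
          omega
        obtain ⟨n', rfl⟩ : ∃ n', n = n' + 1 := ⟨n - 1, by omega⟩
        have := ih K' n' hc fun k hk => by
          have := hn k (hsub (hK' hk))
          have := h1 k hk
          omega
        rw [pow_succ, ← mul_assoc, mul_div_assoc, div_self hu.ne', mul_one]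
        exact this
    set A₁ := (side M a b c K).filter fun k : ℕ =>
      a * (p + q * M ^ k) + (b * M ^ k - c) < 0 ∧ b * (r + s * k) + (a * k - c) < 0 with hA₁
    set A₂ := (side M a b c K).filter fun k : ℕ =>
      a * (p + q * M ^ k) + (b * M ^ k - c) < 0 ∧ 0 ≤ b * (r + s * k) + (a * k - c) with hA₂
    set A₃ := (side M a b c K).filter fun k : ℕ =>
      0 ≤ a * (p + q * M ^ k) + (b * M ^ k - c) ∧ b * (r + s * k) + (a * k - c) < 0 with hA₃
    have s₁ : A₁ ⊆ side M a b c K := Finset.filter_subset _ _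
    have s₂ : A₂ ⊆ side M a b c K := Finset.filter_subset _ _
    have s₃ : A₃ ⊆ side M a b c K := Finset.filter_subset _ _
    have c₁ := cls A₁ s₁ ⟨fun k hk => hm k (hsub (s₁ hk)),
      ⟨_, _, cohH_cut hH (s₁.trans hsub) hO₁ (fun k hk => hs1 k (s₁ hk))
        (fun k hk => (Finset.mem_filter.mp hk).2.1)⟩,
      ⟨_, _, cohV_cut hV (s₁.trans hsub) hO₁ (fun k hk => hs2 k (s₁ hk))
        (fun k hk => (Finset.mem_filter.mp hk).2.2)⟩⟩
      (fun k hk => sib_h (hUh k (hm k (hsub (s₁ hk)))) hH (hsub (s₁ hk)) hT₂ hO₂ (hs1 k (s₁ hk))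
        (Finset.mem_filter.mp hk).2.1)
    have c₂ := cls A₂ s₂ ⟨fun k hk => hm k (hsub (s₂ hk)),
      ⟨_, _, cohH_cut hH (s₂.trans hsub) hO₁ (fun k hk => hs1 k (s₂ hk))
        (fun k hk => (Finset.mem_filter.mp hk).2.1)⟩,
      ⟨_, _, cohV_uncut hV (s₂.trans hsub) hO₁ (fun k hk => hs2 k (s₂ hk))
        (fun k hk => (Finset.mem_filter.mp hk).2.2)⟩⟩
      (fun k hk => sib_h (hUh k (hm k (hsub (s₂ hk)))) hH (hsub (s₂ hk)) hT₂ hO₂ (hs1 k (s₂ hk))
        (Finset.mem_filter.mp hk).2.1)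
    have c₃ := cls A₃ s₃ ⟨fun k hk => hm k (hsub (s₃ hk)),
      ⟨_, _, cohH_uncut hH (s₃.trans hsub) hO₁ (fun k hk => hs1 k (s₃ hk))
        (fun k hk => (Finset.mem_filter.mp hk).2.1)⟩,
      ⟨_, _, cohV_cut hV (s₃.trans hsub) hO₁ (fun k hk => hs2 k (s₃ hk))
        (fun k hk => (Finset.mem_filter.mp hk).2.2)⟩⟩
      (fun k hk => sib_v (hUv k (hm k (hsub (s₃ hk)))) hV (hsub (s₃ hk)) hT₂ hO₂ (hs2 k (s₃ hk))
        (Finset.mem_filter.mp hk).2.2)
    have hcov : (side M a b c K) \ (uncut M p q r s a b c K) ⊆ A₁ ∪ A₂ ∪ A₃ := by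
      intro k hk
      obtain ⟨hk1, hk2⟩ := Finset.mem_sdiff.mp hk
      simp only [uncut, Finset.mem_filter, hk1, true_and, not_and_or, not_le] at hk2
      simp only [hA₁, hA₂, hA₃, Finset.mem_union, Finset.mem_filter, hk1, true_and]
      rcases lt_or_ge (a * (p + q * M ^ k) + (b * M ^ k - c)) 0 with h1 | h1 <;>
        rcases lt_or_ge (b * (r + s * k) + (a * k - c)) 0 with h2 | h2
      · exact Or.inl (Or.inl ⟨h1, h2⟩)
      · exact Or.inl (Or.inr ⟨h1, h2⟩)
      · exact Or.inr ⟨h1, h2⟩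
      · rcases hk2 with h | h <;> linarith
    have hc : ((side M a b c K) \ (uncut M p q r s a b c K)).card ≤ A₁.card + A₂.card + A₃.card :=
      (Finset.card_le_card hcov).trans ((Finset.card_union_le _ _).trans
        (Nat.add_le_add_right (Finset.card_union_le _ _) _))
    have hc' : (((side M a b c K) \ (uncut M p q r s a b c K)).card : ℝ)
        ≤ A₁.card + A₂.card + A₃.card := by exact_mod_cast hc
    linarith

/-- An uncut index forces all later non-exceptional corners to its side. -/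
lemma no_opposite (hM : 2 * (m : ℝ) + 3 ≤ M) (hm : ∀ k ∈ K, k < m) (hH : CohH m M O K p q)
    (hV : CohV m M O K r s) {k k' l i j : ℕ} (hk : k ∈ uncut M p q r s a b c K)
    (hl : l ∈ K) (hi : i ∈ K) (hj : j ∈ K) (hlk : l < k) (hkk : k < k') (hki : k' + 2 ≤ i)
    (hij : i < j) : 0 ≤ a * k' - c + b * M ^ k' := by
  classical
  obtain ⟨hk1, hk2, hk3⟩ := Finset.mem_filter.mp hk
  obtain ⟨-, hk4, -⟩ := Finset.mem_filter.mp hk1
  have hm0 : (0 : ℝ) ≤ m := Nat.cast_nonneg m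
  have hM0 : (0 : ℝ) < M := by linarith
  have h1 := reach_h hM (k := k) (by omega) hij (hH i hi).1 (hH j hj).2.1
  have h2 := reach_v hM hlk hkk (by omega : k' + 2 < j) (hm j hj) (hV l hl).1 (hV j hj).1
  have hki' : (k' : ℝ) + 2 ≤ i := by exact_mod_cast hki
  have hjm : (k' : ℝ) + 1 ≤ m := by
    have := hm j hj
    exact_mod_cast (by omega : k' + 1 ≤ m)
  have hk0 : (0 : ℝ) ≤ k := Nat.cast_nonneg k
  exact triangle (n := m) (by exact_mod_cast hkk) (pow_le_pow_right₀ (by linarith) hkk.le)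
    (by linarith) (pow_pos hM0 k) (by linarith) h2 hk4 hk2 hk3

end side

theorem card_bound {m : ℕ} {M u : ℝ} {U : Set (ℝ × ℝ)} (hM : 2 * (m : ℝ) + 3 ≤ M) (hu : 1 ≤ u)
    (hUh : ∀ k < m, ∀ x, (k : ℝ) ≤ x → x ≤ m → (x, M ^ k) ∈ U)
    (hUv : ∀ k < m, ∀ y, 2 * M ^ k ≤ y → y ≤ M ^ m → ((k : ℝ), y) ∈ U) :
    ∀ (T : BinaryTree (ℝ × ℝ × ℝ)) (O : Set (ℝ × ℝ)) (h : ℕ), Val U O T → T.height ≤ h →
      ∀ (K : Finset ℕ) (n : ℕ), Coh m M O K → (∀ k ∈ K, cnt M k T ≤ n) →
        (K.card : ℝ) ≤ 6 * h * (1 + 6 / u) ^ h * u ^ n := by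
  intro T
  induction T with
  | nil =>
    intro O h hT _ K n hK _
    obtain ⟨hm, ⟨p, q, hH⟩, -⟩ := hK
    have : K = ∅ := by
      rw [Finset.eq_empty_iff_forall_notMem]
      intro k hk
      obtain ⟨e1, e2, e3⟩ := hH k hk
      exact Set.disjoint_left.mp hT (e3 k le_rfl e1) (hUh k (hm k hk) k le_rfl (by linarith))
    subst this
    simp only [Finset.card_empty, Nat.cast_zero]
    positivity
  | node v l r ihl ihr =>
    obtain ⟨a, b, c⟩ := v
    intro O h hT hh K n hK hn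
    classical
    obtain ⟨hab, hl, hr⟩ := hT
    obtain ⟨hm, ⟨p, q, hH⟩, ⟨r', s, hV⟩⟩ := hK
    simp only [BinaryTree.height] at hh
    obtain ⟨h', rfl⟩ : ∃ h', h = h' + 1 := ⟨h - 1, by omega⟩
    have hu0 : 0 < u := by linarith
    set B : ℝ := 6 * h' * (1 + 6 / u) ^ h' with hB
    have hB0 : 0 ≤ B := by positivity
    have hn' : ∀ k ∈ K, cnt M k l + cnt M k r ≤ n := by
      intro k hk
      have := hn k hk
      simp only [cnt] at this
      omega
    obtain ⟨p1, p2⟩ := side_bound (a := a) (b := b) (c := c) (T₁ := l) (T₂ := r) (n := n)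
      (O₁ := O ∩ {p | c < a * p.1 + b * p.2}) (O₂ := O ∩ {p | a * p.1 + b * p.2 < c})
      hu0 hB0 hUh hUv hm hH hV (fun z hz h => ⟨hz, h⟩) (fun z hz h => ⟨hz, h⟩) hr
      (ihl _ h' hl (by omega)) hn'
    obtain ⟨q1, q2⟩ := side_bound (a := -a) (b := -b) (c := -c) (T₁ := r) (T₂ := l) (n := n)
      (O₁ := O ∩ {p | a * p.1 + b * p.2 < c}) (O₂ := O ∩ {p | c < a * p.1 + b * p.2})
      hu0 hB0 hUh hUv hm hH hV
      (fun z hz h => ⟨hz, by show a * z.1 + b * z.2 < c; linarith⟩)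
      (fun z hz h => ⟨hz, by show c < a * z.1 + b * z.2; linarith⟩) hl
      (ihr _ h' hr (by omega)) (fun k hk => by rw [add_comm]; exact hn' k hk)
    obtain ⟨E, hE, hE'⟩ := exists_exc K
    set G := K.filter fun k : ℕ =>
      (a * k - c + b * M ^ k) * (a * k - c + 2 * (b * M ^ k)) ≤ 0 with hG
    have hGc : G.card ≤ 2 := card_le_two_of_no_three fun i hi j hj k hk hij hjk =>
      no_three_gaps hM hab hij hjk (hm k (Finset.mem_filter.mp hk).1)
        (Finset.mem_filter.mp hi).2 (Finset.mem_filter.mp hj).2 (Finset.mem_filter.mp hk).2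
    set Up := uncut M p q r' s a b c K with hUp
    set Un := uncut M p q r' s (-a) (-b) (-c) K with hUn
    set Cp := side M a b c K \ Up with hCp
    set Cn := side M (-a) (-b) (-c) K \ Un with hCn
    have hUpS : Up ⊆ side M a b c K := Finset.filter_subset _ _
    have hUnS : Un ⊆ side M (-a) (-b) (-c) K := Finset.filter_subset _ _
    have hone : Up ⊆ E ∨ Un ⊆ E := by
      by_contra hc
      rw [not_or, Finset.not_subset, Finset.not_subset] at hc
      obtain ⟨⟨k, hk, hkE⟩, ⟨k', hk', hkE'⟩⟩ := hc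
      obtain ⟨hkK, hk1, -⟩ := Finset.mem_filter.mp (hUpS hk)
      obtain ⟨hkK', hk1', -⟩ := Finset.mem_filter.mp (hUnS hk')
      obtain ⟨⟨l₁, hl₁, hl₁'⟩, i₁, hi₁, j₁, hj₁, hi₁', hj₁'⟩ := hE' k hkK hkE
      obtain ⟨⟨l₂, hl₂, hl₂'⟩, i₂, hi₂, j₂, hj₂, hi₂', hj₂'⟩ := hE' k' hkK' hkE'
      rcases lt_trichotomy k k' with hlt | heq | hlt
      · have := no_opposite hM hm hH hV hk hl₁ hi₂ hj₂ hl₁' hlt hi₂' hj₂'
        linarith
      · subst heq; linarith
      · have := no_opposite hM hm hH hV hk' hl₂ hi₁ hj₁ hl₂' hlt hi₁' hj₁'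
        linarith
    have hcov : K ⊆ G ∪ (Up ∪ Un) ∪ (Cp ∪ Cn) := by
      intro k hk
      simp only [Finset.mem_union, hCp, hCn, Finset.mem_sdiff]
      by_cases hg : k ∈ G
      · exact Or.inl (Or.inl hg)
      · have hpos : 0 < (a * k - c + b * M ^ k) * (a * k - c + 2 * (b * M ^ k)) := by
          by_contra hc
          exact hg (Finset.mem_filter.mpr ⟨hk, not_lt.mp hc⟩)
        rcases mul_pos_iff.mp hpos with ⟨h1, h2⟩ | ⟨h1, h2⟩
        · have : k ∈ side M a b c K := Finset.mem_filter.mpr ⟨hk, h1, h2⟩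
          by_cases hU : k ∈ Up <;> tauto
        · have : k ∈ side M (-a) (-b) (-c) K :=
            Finset.mem_filter.mpr ⟨hk, by linarith, by linarith⟩
          by_cases hU : k ∈ Un <;> tauto
    have hc : K.card ≤ G.card + (Up.card + Un.card) + (Cp.card + Cn.card) :=
      (Finset.card_le_card hcov).trans ((Finset.card_union_le _ _).trans
        (Nat.add_le_add ((Finset.card_union_le _ _).trans
          (Nat.add_le_add_left (Finset.card_union_le _ _) _)) (Finset.card_union_le _ _)))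
    have hc' : (K.card : ℝ) ≤ G.card + (Up.card + Un.card) + (Cp.card + Cn.card) := by
      exact_mod_cast hc
    have hGc' : (G.card : ℝ) ≤ 2 := by exact_mod_cast hGc
    have hU : (Up.card : ℝ) + Un.card ≤ 4 + B * u ^ n := by
      rcases hone with h | h
      · have : (Up.card : ℝ) ≤ 4 := by exact_mod_cast (Finset.card_le_card h).trans hE
        linarith
      · have : (Un.card : ℝ) ≤ 4 := by exact_mod_cast (Finset.card_le_card h).trans hE
        linarith
    have hw : 1 ≤ (1 + 6 / u) ^ (h' + 1) * u ^ n := by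
      have h1 : (1 : ℝ) ≤ 1 + 6 / u := by
        have : 0 ≤ 6 / u := by positivity
        linarith
      exact one_le_mul_of_one_le_of_one_le (one_le_pow₀ h1) (one_le_pow₀ hu)
    have e : 6 * ((h' + 1 : ℕ) : ℝ) * (1 + 6 / u) ^ (h' + 1) * u ^ n
        = B * u ^ n + 6 * (B * u ^ n / u) + 6 * ((1 + 6 / u) ^ (h' + 1) * u ^ n) := by
      rw [hB]; push_cast; ring
    rw [e]
    linarith

end Pool.Agent.MP_df548b_lc

end

-- part MP_df548b_lc.Main
section

/-! The family of nested L-shapes and the final estimate. -/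

namespace Pool.Agent.MP_df548b_lc

open Set

lemma val_of_isBSP {S : Finset (Set (ℝ × ℝ))} :
    ∀ (T : BinaryTree (ℝ × ℝ × ℝ)) (R O : Set (ℝ × ℝ)), IsBSP S R T → IsOpen O → O ⊆ R →
      Val (⋃ s ∈ S, s) O T := by
  intro T
  induction T with
  | nil =>
    intro R O h hO hOR
    simp only [Val, Set.disjoint_iUnion_right]
    intro s hs
    exact (h s hs).mono_left (interior_maximal hOR hO)
  | node v l r ihl ihr =>
    obtain ⟨a, b, c⟩ := v
    intro R O h hO hOR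
    obtain ⟨hab, hl, hr⟩ := h
    refine ⟨hab, ihl _ _ hl (hO.inter (isOpen_lt (by fun_prop) (by fun_prop))) ?_,
      ihr _ _ hr (hO.inter (isOpen_lt (by fun_prop) (by fun_prop))) ?_⟩
    · rintro z ⟨h1, h2⟩
      exact ⟨hOR h1, (le_of_lt h2 : c ≤ a * z.1 + b * z.2)⟩
    · rintro z ⟨h1, h2⟩
      exact ⟨hOR h1, (le_of_lt h2 : a * z.1 + b * z.2 ≤ c)⟩

/-- The segments: `inl k` is horizontal, `inr k` is vertical. -/
def seg (m : ℕ) (M : ℝ) : Fin m ⊕ Fin m → Set (ℝ × ℝ)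
  | .inl k => segment ℝ (((k : ℕ) : ℝ), M ^ (k : ℕ)) ((m : ℝ), M ^ (k : ℕ))
  | .inr k => segment ℝ (((k : ℕ) : ℝ), 2 * M ^ (k : ℕ)) (((k : ℕ) : ℝ), M ^ m)

lemma two_pow_lt {m : ℕ} {M : ℝ} (hM : 2 * (m : ℝ) + 3 ≤ M) {k : ℕ} (hk : k < m) :
    2 * M ^ k < M ^ m := by
  have hm0 : (0 : ℝ) ≤ m := Nat.cast_nonneg m
  have hM0 : (0 : ℝ) < M := by linarith
  have h1 : M * M ^ k ≤ M ^ m := by
    rw [← pow_succ']
    exact pow_le_pow_right₀ (by linarith) hk
  have := pow_pos hM0 k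
  nlinarith

lemma mem_seg_inl {m : ℕ} {M : ℝ} {k : Fin m} {z : ℝ × ℝ} :
    z ∈ seg m M (.inl k) ↔ ((k : ℕ) : ℝ) ≤ z.1 ∧ z.1 ≤ m ∧ z.2 = M ^ (k : ℕ) := by
  have hk : ((k : ℕ) : ℝ) ≤ m := by exact_mod_cast k.2.le
  simp only [seg]
  rw [← Prod.image_mk_segment_left, segment_eq_Icc hk]
  constructor
  · rintro ⟨x, hx, rfl⟩
    exact ⟨hx.1, hx.2, rfl⟩
  · rintro ⟨h1, h2, h3⟩
    exact ⟨z.1, ⟨h1, h2⟩, Prod.ext rfl h3.symm⟩

lemma mem_seg_inr {m : ℕ} {M : ℝ} (hM : 2 * (m : ℝ) + 3 ≤ M) {k : Fin m} {z : ℝ × ℝ} :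
    z ∈ seg m M (.inr k) ↔ 2 * M ^ (k : ℕ) ≤ z.2 ∧ z.2 ≤ M ^ m ∧ z.1 = ((k : ℕ) : ℝ) := by
  simp only [seg]
  rw [← Prod.image_mk_segment_right, segment_eq_Icc (two_pow_lt hM k.2).le]
  constructor
  · rintro ⟨x, hx, rfl⟩
    exact ⟨hx.1, hx.2, rfl⟩
  · rintro ⟨h1, h2, h3⟩
    exact ⟨z.2, ⟨h1, h2⟩, Prod.ext h3.symm rfl⟩

lemma seg_disjoint {m : ℕ} {M : ℝ} (hM : 2 * (m : ℝ) + 3 ≤ M) :
    Pairwise fun i j => Disjoint (seg m M i) (seg m M j) := by
  have hm0 : (0 : ℝ) ≤ m := Nat.cast_nonneg m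
  have hM0 : (0 : ℝ) < M := by linarith
  have hM1 : (1 : ℝ) < M := by linarith
  have mixed : ∀ k j : Fin m, Disjoint (seg m M (.inl k)) (seg m M (.inr j)) := by
    intro k j
    rw [Set.disjoint_left]
    intro z h1 h2
    rw [mem_seg_inl] at h1
    rw [mem_seg_inr hM] at h2
    have hkj : (k : ℕ) ≤ j := by
      have : ((k : ℕ) : ℝ) ≤ ((j : ℕ) : ℝ) := by linarith [h1.1, h2.2.2]
      exact_mod_cast this
    have := pow_le_pow_right₀ hM1.le hkj
    have := pow_pos hM0 j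
    linarith [h1.2.2, h2.1]
  rintro (k | k) (j | j) hne
  · rw [Set.disjoint_left]
    intro z h1 h2
    rw [mem_seg_inl] at h1 h2
    have : M ^ (k : ℕ) = M ^ (j : ℕ) := by rw [← h1.2.2, h2.2.2]
    exact hne (congrArg _ (Fin.ext (pow_right_injective₀ hM0 hM1.ne' this)))
  · exact mixed k j
  · exact (mixed j k).symm
  · rw [Set.disjoint_left]
    intro z h1 h2
    rw [mem_seg_inr hM] at h1 h2
    have : ((k : ℕ) : ℝ) = ((j : ℕ) : ℝ) := by rw [← h1.2.2, h2.2.2]
    exact hne (congrArg _ (Fin.ext (by exact_mod_cast this)))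

lemma seg_is_segment {m : ℕ} {M : ℝ} (hM : 2 * (m : ℝ) + 3 ≤ M) (i : Fin m ⊕ Fin m) :
    ∃ p q : ℝ × ℝ, p ≠ q ∧ seg m M i = segment ℝ p q := by
  rcases i with k | k
  · refine ⟨_, _, fun h => ?_, rfl⟩
    have : ((k : ℕ) : ℝ) = m := congrArg Prod.fst h
    exact absurd (by exact_mod_cast this) k.2.ne
  · refine ⟨_, _, fun h => ?_, rfl⟩
    exact (two_pow_lt hM k.2).ne (congrArg Prod.snd h)

lemma seg_injective {m : ℕ} {M : ℝ} (hM : 2 * (m : ℝ) + 3 ≤ M) :
    Function.Injective (seg m M) := by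
  intro i j hij
  by_contra hne
  have h := seg_disjoint hM hne
  obtain ⟨p, q, -, hpq⟩ := seg_is_segment hM i
  have hp : p ∈ seg m M i := hpq ▸ left_mem_segment ℝ p q
  exact Set.disjoint_left.mp h hp (hij ▸ hp)

/-- The finite trade-off between height and size. -/
theorem tradeoff (m : ℕ) : ∃ S : Finset (Set (ℝ × ℝ)), S.card = 2 * m ∧
    (∀ s ∈ S, ∃ p q : ℝ × ℝ, p ≠ q ∧ s = segment ℝ p q) ∧
    (S : Set (Set (ℝ × ℝ))).PairwiseDisjoint id ∧
    ∀ T : BinaryTree (ℝ × ℝ × ℝ), IsBSP S univ T → ∀ (u : ℝ) (a : ℕ), 1 ≤ u →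
      ((m : ℝ) - 6 * T.height * (1 + 6 / u) ^ T.height * u ^ a) * (a + 1) ≤ T.numNodes := by
  classical
  set M : ℝ := 2 * m + 3 with hMdef
  have hM : 2 * (m : ℝ) + 3 ≤ M := le_rfl
  have hm0 : (0 : ℝ) ≤ m := Nat.cast_nonneg m
  refine ⟨Finset.univ.image (seg m M), ?_, ?_, ?_, ?_⟩
  · rw [Finset.card_image_of_injective _ (seg_injective hM)]
    simp [two_mul]
  · intro s hs
    obtain ⟨i, -, rfl⟩ := Finset.mem_image.mp hs
    exact seg_is_segment hM i
  · intro s hs t ht hst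
    obtain ⟨i, -, rfl⟩ := Finset.mem_image.mp (Finset.mem_coe.mp hs)
    obtain ⟨j, -, rfl⟩ := Finset.mem_image.mp (Finset.mem_coe.mp ht)
    exact seg_disjoint hM fun h => hst (congrArg _ h)
  · intro T hT u a hu
    have hV := val_of_isBSP T univ univ hT isOpen_univ subset_rfl
    set K := (Finset.range m).filter fun k => cnt M k T ≤ a with hK
    have hb := card_bound hM hu (U := ⋃ s ∈ Finset.univ.image (seg m M), s) ?_ ?_ T univ T.height
      hV le_rfl K a ?_ (fun k hk => (Finset.mem_filter.mp hk).2)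
    · have hs := sum_cnt_le (M := M) (by linarith) (Finset.range m \ K) T univ hV
      have h1 : (Finset.range m \ K).card * (a + 1) ≤ ∑ k ∈ Finset.range m \ K, cnt M k T := by
        rw [← smul_eq_mul]
        apply Finset.card_nsmul_le_sum
        intro k hk
        obtain ⟨hk1, hk2⟩ := Finset.mem_sdiff.mp hk
        by_contra hc
        exact hk2 (Finset.mem_filter.mpr ⟨hk1, by omega⟩)
      have h2 : (Finset.range m \ K).card + K.card = m := by
        rw [Finset.card_sdiff_add_card_eq_card (Finset.filter_subset _ _), Finset.card_range]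
      have h3 : (((Finset.range m \ K).card : ℕ) : ℝ) * (a + 1) ≤ T.numNodes := by
        exact_mod_cast h1.trans hs
      have h4 : (((Finset.range m \ K).card : ℕ) : ℝ) + K.card = m := by exact_mod_cast h2
      refine le_trans (mul_le_mul_of_nonneg_right ?_ (by positivity)) h3
      linarith
    · intro k hk x hx1 hx2
      simp only [Set.mem_iUnion]
      exact ⟨seg m M (.inl ⟨k, hk⟩), Finset.mem_image_of_mem _ (Finset.mem_univ _),
        mem_seg_inl.mpr ⟨hx1, hx2, rfl⟩⟩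
    · intro k hk y hy1 hy2
      simp only [Set.mem_iUnion]
      exact ⟨seg m M (.inr ⟨k, hk⟩), Finset.mem_image_of_mem _ (Finset.mem_univ _),
        (mem_seg_inr hM).mpr ⟨hy1, hy2, rfl⟩⟩
    · have hlt : ∀ k ∈ K, k < m := fun k hk => Finset.mem_range.mp (Finset.mem_filter.mp hk).1
      refine ⟨hlt, ⟨m, 0, fun k hk => ⟨?_, by simp, fun _ _ _ => trivial⟩⟩,
        ⟨M ^ m, 0, fun k hk => ⟨?_, by simp, fun _ _ _ => trivial⟩⟩⟩
      · simpa using hlt k hk
      · simpa using two_pow_lt hM (hlt k hk)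

/-- The numerical estimate. -/
lemma numeric {C L h N : ℝ} {H : ℕ} (hC : 1 ≤ C) (hL : 192 * C ≤ L) (hH : (H : ℝ) ≤ C * L)
    (hb : ∀ (u : ℝ) (a : ℕ), 1 ≤ u →
      (Real.exp L / 2 - 6 * H * (1 + 6 / u) ^ H * u ^ a) * (a + 1) ≤ N)
    (hh : h = Real.log (24 * C)) : Real.exp L * L / (16 * h) ≤ N := by
  have hh0 : 0 < h := by rw [hh]; exact Real.log_pos (by linarith)
  have hL0 : 0 < L := by linarith
  have hC0 : 0 < C := by linarith
  set a := ⌊L / (4 * h)⌋₊ with ha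
  have ha1 : (a : ℝ) ≤ L / (4 * h) := Nat.floor_le (by positivity)
  have ha2 : L / (4 * h) < a + 1 := Nat.lt_floor_add_one _
  have h1 : (24 * C) ^ a ≤ Real.exp (L / 4) := by
    have : (24 * C) ^ a = Real.exp (a * h) := by
      rw [Real.exp_nat_mul, hh, Real.exp_log (by positivity)]
    rw [this]
    apply Real.exp_le_exp.mpr
    rw [le_div_iff₀ (by positivity)] at ha1
    linarith
  have h2 : (1 + 6 / (24 * C)) ^ H ≤ Real.exp (L / 4) := by
    have e1 : 1 + 6 / (24 * C) ≤ Real.exp (6 / (24 * C)) := by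
      linarith [Real.add_one_le_exp (6 / (24 * C))]
    refine (pow_le_pow_left₀ (by positivity) e1 H).trans ?_
    rw [← Real.exp_nat_mul]
    apply Real.exp_le_exp.mpr
    have : (H : ℝ) * (6 / (24 * C)) ≤ C * L * (6 / (24 * C)) :=
      mul_le_mul_of_nonneg_right hH (by positivity)
    have e : C * L * (6 / (24 * C)) = L / 4 := by field_simp; ring
    linarith
  have h3 : 24 * C * L ≤ Real.exp (L / 2) := by
    have := Real.quadratic_le_exp_of_nonneg (x := L / 2) (by positivity)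
    nlinarith
  have e4 : Real.exp (L / 4) * Real.exp (L / 4) = Real.exp (L / 2) := by
    rw [← Real.exp_add]; ring_nf
  have e5 : Real.exp (L / 2) * Real.exp (L / 2) = Real.exp L := by
    rw [← Real.exp_add]; ring_nf
  have h4 : 6 * H * (1 + 6 / (24 * C)) ^ H * (24 * C) ^ a ≤ Real.exp L / 4 := by
    have p1 : (1 + 6 / (24 * C)) ^ H * (24 * C) ^ a ≤ Real.exp (L / 2) := by
      rw [← e4]
      exact mul_le_mul h2 h1 (by positivity) (by positivity)
    have p2 : 6 * (H : ℝ) ≤ Real.exp (L / 2) / 4 := by linarith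
    calc 6 * H * (1 + 6 / (24 * C)) ^ H * (24 * C) ^ a
        = (6 * H) * ((1 + 6 / (24 * C)) ^ H * (24 * C) ^ a) := by ring
      _ ≤ (Real.exp (L / 2) / 4) * Real.exp (L / 2) :=
        mul_le_mul p2 p1 (by positivity) (by positivity)
      _ = Real.exp L / 4 := by rw [← e5]; ring
  have h5 := hb (24 * C) a (by linarith)
  have h6 : Real.exp L / 4 * (L / (4 * h)) ≤
      (Real.exp L / 2 - 6 * H * (1 + 6 / (24 * C)) ^ H * (24 * C) ^ a) * (a + 1) :=
    mul_le_mul (by linarith) ha2.le (by positivity) (by linarith [Real.exp_pos L])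
  have e : Real.exp L * L / (16 * h) = Real.exp L / 4 * (L / (4 * h)) := by
    field_simp; ring
  linarith

theorem no_shallow_small_bsp (C : ℝ) : ∃ n : ℕ, 3 ≤ n ∧ ∃ S : Finset (Set (ℝ × ℝ)), S.card = n ∧
    (∀ s ∈ S, ∃ p q : ℝ × ℝ, p ≠ q ∧ s = segment ℝ p q) ∧
    (S : Set (Set (ℝ × ℝ))).PairwiseDisjoint id ∧
    ∀ T : BinaryTree (ℝ × ℝ × ℝ), IsBSP S univ T →
      (T.numLeaves : ℝ) ≤ C * n * Real.log n / Real.log (Real.log n) →
        C * Real.log n < T.height := by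
  set D := max C 1 with hD
  have hD1 : 1 ≤ D := le_max_right _ _
  have hCD : C ≤ D := le_max_left _ _
  set h := Real.log (24 * D) with hh
  have hh0 : 0 < h := Real.log_pos (by linarith)
  set Z := max (192 * D) (Real.exp (16 * D * h + 1)) with hZ
  obtain ⟨m, hm⟩ := exists_nat_ge (Real.exp Z + 2)
  have hZ0 := Real.exp_pos Z
  have hm2 : 2 ≤ m := by
    have : (2 : ℝ) ≤ m := by linarith
    exact_mod_cast this
  obtain ⟨S, h1, h2, h3, h4⟩ := tradeoff m
  refine ⟨2 * m, by omega, S, h1, h2, h3, fun T hT hs => ?_⟩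
  by_contra hc
  push Not at hc
  set L := Real.log ((2 * m : ℕ) : ℝ) with hL
  have hn0 : (0 : ℝ) < ((2 * m : ℕ) : ℝ) := by push_cast; linarith
  have hexp : Real.exp L = ((2 * m : ℕ) : ℝ) := Real.exp_log hn0
  have hLZ : Z ≤ L := by
    rw [hL, Real.le_log_iff_exp_le hn0]; push_cast; linarith
  have hL1 : 192 * D ≤ L := (le_max_left _ _).trans hLZ
  have hL0 : 0 < L := by linarith
  have hL2 : 16 * D * h + 1 ≤ Real.log L := by
    rw [Real.le_log_iff_exp_le hL0]; exact (le_max_right _ _).trans hLZ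
  have hDh : 0 < 16 * D * h := by positivity
  have hlog : 0 < Real.log L := by linarith
  have key := numeric (C := D) (L := L) (h := h) (N := T.numNodes) (H := T.height) hD1 hL1
    (hc.trans (mul_le_mul_of_nonneg_right hCD hL0.le)) (fun u a hu => by
      have := h4 T hT u a hu
      rw [hexp]; push_cast
      have e : 2 * (m : ℝ) / 2 = m := by ring
      rw [e]; exact this) hh
  have hleaf : (T.numNodes : ℝ) < T.numLeaves := by
    rw [BinaryTree.numLeaves_eq_numNodes_succ]; push_cast; linarith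
  rw [← hexp] at hs
  have hE := Real.exp_pos L
  have h5 : C * Real.exp L * L / Real.log L ≤ Real.exp L * L / (16 * h) := by
    rw [div_le_div_iff₀ hlog (by positivity)]
    have hEL : 0 < Real.exp L * L := by positivity
    have : C * (16 * h) ≤ Real.log L := by nlinarith
    nlinarith
  linarith

end Pool.Agent.MP_df548b_lc

end
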